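import Pool.Agent.MQG.StmtsA

/-!
# MQG, row AHR: products of slices of `U` and of `U^`
-/

set_option autoImplicit false

namespace Pool.Agent.MQG.H32

open scoped InnerProductSpace InnerProduct Topology ComplexConjugate
open Complex Filter

theorem key_prod {ι κ : Type} (M : MU ι) (U Uh : Op (κ × ι))
    (hk : l23 M.Wt * l12 Uh = (l13 U * l12 Uh * l23 M.Wt : Op (κ × ι × ι))) :
    (l13 U * l12 Uh : Op (κ × ι × ι)) = l23 M.Wt * l12 Uh * l23 (star M.Wt) := by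
  have h1 : (l23 M.Wt * l23 (star M.Wt) : Op (κ × ι × ι)) = 1 := by
    rw [← l23_mul, (Unitary.mem_iff.1 M.Wt_unitary).2, l23_one]
  rw [hk, mul_assoc (l13 U * l12 Uh), h1, mul_one]

theorem key_sl {ι κ : Type} (M : MU ι) (U Uh : Op (κ × ι))
    (hk : l23 M.Wt * l12 Uh = (l13 U * l12 Uh * l23 M.Wt : Op (κ × ι × ι)))
    (ζ ζ' : L2 (ι × ι)) :
    sl (l13 U * l12 Uh : Op (κ × ι × ι)) ζ ζ' = sl (l12 Uh : Op (κ × ι × ι)) (star M.Wt ζ) (star M.Wt ζ') := by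
  rw [key_prod M U Uh hk, sl_l23_mul]

theorem sl_l12_mem {ι κ : Type} (Uh : Op (κ × ι)) (ζ ζ' : L2 (ι × ι)) :
    sl (l12 Uh : Op (κ × ι × ι)) ζ ζ' ∈ SlSp Uh := by
  refine sl_mem_of_total total_tn total_tn _ _ (Submodule.isClosed_topologicalClosure _) ?_ ζ ζ'
  rintro _ ⟨h, u, rfl⟩ _ ⟨h', y, rfl⟩
  rw [sl_l12]
  exact Submodule.smul_mem _ _ (Submodule.le_topologicalClosure _
    (Submodule.subset_span ⟨h, h', rfl⟩))

theorem ahr : KeyStmt → AhrStmt := by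
  intro hK ι M κ U Uh hA hH
  have hk := hK ι M κ U Uh hA hH
  have hu := Unitary.mem_iff.1 M.Wt_unitary
  refine ⟨fun u' y' u y => ?_, fun u y => ?_⟩
  · rw [← sl_l13_mul_l12, key_sl M U Uh hk]
    exact sl_l12_mem Uh _ _
  · by_cases hu0 : u = 0
    · rw [hu0, sl_zero_left]
      exact Submodule.zero_mem _
    have h1 : ∀ ζ ζ' : L2 (ι × ι), sl (l13 U * l12 Uh : Op (κ × ι × ι)) ζ ζ' ∈
        (Submodule.span ℂ {S : Op κ | ∃ u' y' u y,
          S = sl U u' y' * sl Uh u y}).topologicalClosure := by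
      intro ζ ζ'
      refine sl_mem_of_total total_tn total_tn _ _
        (Submodule.isClosed_topologicalClosure _) ?_ ζ ζ'
      rintro _ ⟨h, u, rfl⟩ _ ⟨h', y, rfl⟩
      rw [sl_l13_mul_l12]
      exact Submodule.le_topologicalClosure _ (Submodule.subset_span ⟨u, y, h, h', rfl⟩)
    have h2 := h1 (M.Wt (tn u u)) (M.Wt (tn y u))
    have h3 : ∀ ζ : L2 (ι × ι), star M.Wt (M.Wt ζ) = ζ := by
      intro ζ
      rw [← mul_apply_eq_comp, hu.1]
      rfl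
    rw [key_sl M U Uh hk, h3, h3, sl_l12] at h2
    have h4 : ⟪u, u⟫_ℂ ≠ 0 := inner_self_ne_zero.2 hu0
    have h5 := Submodule.smul_mem _ (⟪u, u⟫_ℂ)⁻¹ h2
    rw [smul_smul, inv_mul_cancel₀ h4, one_smul] at h5
    exact h5

end Pool.Agent.MQG.H32
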