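import Pool.Agent.MQG.StmtsA

/-!
# MQG, row ASX: `Aalg U` is the closed span of the slices
-/

set_option autoImplicit false

namespace Pool.Agent.MQG.H32

open scoped InnerProductSpace InnerProduct Topology ComplexConjugate
open Complex Filter

theorem star_mem_span_closure {κ : Type} {X Y : Set (Op κ)} (h : ∀ x ∈ X, star x ∈ Y) (a : Op κ)
    (ha : a ∈ (Submodule.span ℂ X).topologicalClosure) :
    star a ∈ (Submodule.span ℂ Y).topologicalClosure := by
  have h1 : closure (Submodule.span ℂ X : Set (Op κ)) ⊆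
      star ⁻¹' closure (Submodule.span ℂ Y : Set (Op κ)) := by
    refine closure_minimal ?_ (isClosed_closure.preimage continuous_star)
    intro w hw
    refine subset_closure ?_
    change star w ∈ Submodule.span ℂ Y
    induction hw using Submodule.span_induction with
    | mem x hx => exact Submodule.subset_span (h x hx)
    | zero => rw [star_zero]; exact Submodule.zero_mem _
    | add x y _ _ hx hy => rw [star_add]; exact Submodule.add_mem _ hx hy
    | smul r x _ hx => rw [star_smul]; exact Submodule.smul_mem _ _ hx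
  exact h1 ha

theorem star_mem_SlSp {κ ι : Type} (T : Op (κ × ι)) (a : Op κ) (ha : a ∈ SlSp T) :
    star a ∈ SlSp (star T) := by
  refine star_mem_span_closure ?_ a ha
  rintro _ ⟨u, y, rfl⟩
  exact ⟨y, u, star_sl T u y⟩

theorem star_mem_SlSp_iff {κ ι : Type} (T : Op (κ × ι)) (a : Op κ) :
    a ∈ SlSp (star T) ↔ star a ∈ SlSp T := by
  constructor
  · intro h
    have h1 := star_mem_SlSp (star T) a h
    rwa [star_star] at h1
  · intro h
    have h1 := star_mem_SlSp T (star a) h
    rwa [star_star] at h1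

/-- Products of elements of two closed spans are in a closed subspace if the products of the
generators are. -/
theorem mul_mem_of_gen {κ : Type} {X Y : Set (Op κ)} (S : Submodule ℂ (Op κ))
    (hS : IsClosed (S : Set (Op κ))) (h : ∀ x ∈ X, ∀ y ∈ Y, x * y ∈ S) (a b : Op κ)
    (ha : a ∈ (Submodule.span ℂ X).topologicalClosure)
    (hb : b ∈ (Submodule.span ℂ Y).topologicalClosure) : a * b ∈ S := by
  have h1 : ∀ x ∈ X, ∀ b ∈ (Submodule.span ℂ Y).topologicalClosure, x * b ∈ S := by
    intro x hx b hb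
    have h2 : (Submodule.span ℂ Y).topologicalClosure ≤
        S.comap (LinearMap.mulLeft ℂ x) := by
      refine Submodule.topologicalClosure_minimal _ ?_
        (hS.preimage (continuous_const.mul continuous_id))
      refine Submodule.span_le.2 fun y hy => h x hx y hy
    exact h2 hb
  have h3 : (Submodule.span ℂ X).topologicalClosure ≤ S.comap (LinearMap.mulRight ℂ b) := by
    refine Submodule.topologicalClosure_minimal _ ?_
      (hS.preimage (continuous_id.mul continuous_const))
    refine Submodule.span_le.2 fun x hx => h1 x hx b hb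
  exact h3 ha

theorem hat_SlSp {ι κ : Type} (M : MU ι) (U Uh : Op (κ × ι)) (hH : IsHat M.V U Uh) :
    SlSp Uh = SlSp (star U) := by
  apply le_antisymm
  · refine Submodule.topologicalClosure_minimal _ ?_ (Submodule.isClosed_topologicalClosure _)
    refine Submodule.span_le.2 ?_
    rintro _ ⟨u, y, rfl⟩
    refine sl_mem_of_total (total_star (total_traj M.V_group 0))
      (total_star (total_traj M.V_group 0)) _ _ (Submodule.isClosed_topologicalClosure _) ?_ u y
    rintro _ ⟨_, ⟨f, hf, rfl⟩, rfl⟩ _ ⟨_, ⟨g, hg, rfl⟩, rfl⟩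
    rw [hH.sl hf hg]
    exact Submodule.le_topologicalClosure _ (Submodule.subset_span ⟨_, _, rfl⟩)
  · refine Submodule.topologicalClosure_minimal _ ?_ (Submodule.isClosed_topologicalClosure _)
    refine Submodule.span_le.2 ?_
    rintro _ ⟨u, y, rfl⟩
    refine sl_mem_of_total (total_traj M.V_group (-(I / 2))) (total_traj M.V_group (I / 2)) _ _
      (Submodule.isClosed_topologicalClosure _) ?_ u y
    rintro _ ⟨g, hg, rfl⟩ _ ⟨f, hf, rfl⟩
    rw [← hH.sl hf hg]
    exact Submodule.le_topologicalClosure _ (Submodule.subset_span ⟨_, _, rfl⟩)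

theorem SlSp_le_Aalg {ι κ : Type} (U : Op (κ × ι)) (a : Op κ) (ha : a ∈ SlSp U) :
    a ∈ Aalg U := by
  have h1 : SlSp U ≤ (Aalg U).toNonUnitalSubalgebra.toSubmodule := by
    refine Submodule.topologicalClosure_minimal _ ?_ (isClosed_Aalg U)
    refine Submodule.span_le.2 ?_
    rintro _ ⟨u, y, rfl⟩
    exact sl_mem U u y
  exact h1 ha

theorem Aalg_le {ι κ : Type} (U : Op (κ × ι))
    (hmul : ∀ a b, a ∈ SlSp U → b ∈ SlSp U → a * b ∈ SlSp U)
    (hstar : ∀ a, a ∈ SlSp U → star a ∈ SlSp U) (a : Op κ) (ha : a ∈ Aalg U) : a ∈ SlSp U := by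
  let N : NonUnitalStarSubalgebra ℂ (Op κ) :=
    { carrier := SlSp U
      add_mem' := fun {a b} ha hb => (SlSp U).add_mem ha hb
      zero_mem' := (SlSp U).zero_mem
      mul_mem' := fun {a b} ha hb => hmul a b ha hb
      smul_mem' := fun c a ha => (SlSp U).smul_mem c ha
      star_mem' := fun {a} ha => hstar a ha }
  have h1 : Aalg U ≤ N := by
    have h2 : NonUnitalStarAlgebra.adjoin ℂ {T | ∃ u y, T = sl U u y} ≤ N := by
      refine NonUnitalStarAlgebra.adjoin_le ?_
      rintro _ ⟨u, y, rfl⟩
      exact Submodule.le_topologicalClosure _ (Submodule.subset_span ⟨_, _, rfl⟩)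
    have h3 : IsClosed (N : Set (Op κ)) :=
      Submodule.isClosed_topologicalClosure (Submodule.span ℂ {S : Op κ | ∃ u y, S = sl U u y})
    exact NonUnitalStarSubalgebra.topologicalClosure_minimal _ h2 h3
  exact h1 ha

theorem asx : AhrStmt → AsxStmt := by
  intro hR ι M κ U Uh hA hH
  obtain ⟨hR1, hR2⟩ := hR ι M κ U Uh hA hH
  have hE := hat_SlSp M U Uh hH
  -- `A A' ⊆ A'`
  have hmul : ∀ a b, a ∈ SlSp U → b ∈ SlSp (star U) → a * b ∈ SlSp (star U) := by
    intro a b ha hb
    rw [← hE] at hb ⊢
    refine mul_mem_of_gen _ (Submodule.isClosed_topologicalClosure _) ?_ a b ha hb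
    rintro _ ⟨u', y', rfl⟩ _ ⟨u, y, rfl⟩
    exact hR1 u' y' u y
  -- the products
  set C : Submodule ℂ (Op κ) := (Submodule.span ℂ {S : Op κ | ∃ a b, a ∈ SlSp U ∧
    b ∈ SlSp (star U) ∧ S = a * b}).topologicalClosure with hC
  have hC1 : SlSp (star U) ≤ C := by
    rw [← hE]
    refine Submodule.topologicalClosure_minimal _ ?_ (Submodule.isClosed_topologicalClosure _)
    refine Submodule.span_le.2 ?_
    rintro _ ⟨u, y, rfl⟩
    refine Submodule.topologicalClosure_mono (Submodule.span_mono ?_) (hR2 u y)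
    rintro _ ⟨u', y', u, y, rfl⟩
    refine ⟨_, _, Submodule.le_topologicalClosure _ (Submodule.subset_span ⟨u', y', rfl⟩), ?_, rfl⟩
    rw [← hE]
    exact Submodule.le_topologicalClosure _ (Submodule.subset_span ⟨u, y, rfl⟩)
  have hC2 : C ≤ SlSp (star U) := by
    refine Submodule.topologicalClosure_minimal _ ?_ (Submodule.isClosed_topologicalClosure _)
    refine Submodule.span_le.2 ?_
    rintro _ ⟨a, b, ha, hb, rfl⟩
    exact hmul a b ha hb
  have hC3 : ∀ a ∈ C, star a ∈ C := by
    intro a ha
    refine star_mem_span_closure ?_ a ha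
    rintro _ ⟨a, b, ha, hb, rfl⟩
    refine ⟨star b, star a, ?_, ?_, star_mul a b⟩
    · exact (star_mem_SlSp_iff U b).1 hb
    · exact star_mem_SlSp U a ha
  have hs' : ∀ a, a ∈ SlSp (star U) → star a ∈ SlSp (star U) := fun a ha =>
    hC2 (hC3 a (hC1 ha))
  have hEq : SlSp (star U) = SlSp U := by
    ext a
    constructor
    · intro ha
      have h1 := (star_mem_SlSp_iff U (star a)).1 (hs' a ha)
      rwa [star_star] at h1
    · intro ha
      have h1 := hs' _ (star_mem_SlSp U a ha)
      rwa [star_star] at h1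
  have hs : ∀ a, a ∈ SlSp U → star a ∈ SlSp U := by
    intro a ha
    have h1 := star_mem_SlSp U a ha
    rwa [hEq] at h1
  have hm : ∀ a b, a ∈ SlSp U → b ∈ SlSp U → a * b ∈ SlSp U := by
    intro a b ha hb
    have h1 := hmul a b ha (by rw [hEq]; exact hb)
    rwa [hEq] at h1
  refine ⟨fun a => ⟨Aalg_le U hm hs a, SlSp_le_Aalg U a⟩, hEq, hE.trans hEq, ?_⟩
  ext a
  rw [star_mem_SlSp_iff, hE, hEq]
  constructor
  · intro ha
    have h1 := hs _ ha
    rwa [star_star] at h1
  · intro ha
    exact hs a ha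

end Pool.Agent.MQG.H32
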